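import Mathlib
import Pool.Agent.TH119.RF.Main

/-!
# Motives of cuspidal representations of Artin type, with small coefficients

Let `K` and `E` be number fields and let `P_v` be polynomials over the ring of integers of `E`, for
the primes `v` of `K` outside a finite set (the Hecke polynomials of a cuspidal automorphic
representation of `GL_n` over `K` of Artin type).  If the mean square of the traces is bounded for
all complex embeddings of `E` and essentially smaller than `2` for one of them (for a cuspidal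
representation it is `1`), and if for infinitely many primes `λ` of `E` there is a semisimple
representation modulo `λ` attached to the `P_v`, then there is an absolutely irreducible Artin
motive over `K`, with coefficients in a number field containing `E`, attached to the `P_v`.  Every
field over which some `P_v` has a simple root can be taken as the field of coefficients.
-/

namespace Pool.Agent.Results.MP_7742d9_nt.ArtinMotivesOverHeckeField

open NumberField IsDedekindDomain Polynomial Filter Topology

/-- The absolute Galois group, with the Krull topology. -/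
abbrev AbsGal (K : Type) [Field K] : Type := Gal(AlgebraicClosure K/K)

/-- `σ` is a Frobenius element at the prime `v` of `K`: there is a maximal ideal `Q` above `v` of the
ring of all algebraic integers with `σ x ≡ x ^ N(v)` modulo `Q` for all `x`. -/
def IsFrobenius {K : Type} [Field K] [NumberField K] (v : HeightOneSpectrum (𝓞 K))
    (σ : AbsGal K) : Prop :=
  ∃ Q : Ideal (𝓞 (AlgebraicClosure K)), Q.IsMaximal ∧
    Q.comap (algebraMap (𝓞 K) (𝓞 (AlgebraicClosure K))) = v.asIdeal ∧
    ∀ x : 𝓞 (AlgebraicClosure K), σ • x - x ^ Ideal.absNorm v.asIdeal ∈ Q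

/-- `σ` is in an inertia group at the prime `v` of `K`: there is a maximal ideal `Q` above `v` of the
ring of all algebraic integers with `σ x ≡ x` modulo `Q` for all `x`. -/
def IsInertia {K : Type} [Field K] [NumberField K] (v : HeightOneSpectrum (𝓞 K))
    (σ : AbsGal K) : Prop :=
  ∃ Q : Ideal (𝓞 (AlgebraicClosure K)), Q.IsMaximal ∧
    Q.comap (algebraMap (𝓞 K) (𝓞 (AlgebraicClosure K))) = v.asIdeal ∧
    ∀ x : 𝓞 (AlgebraicClosure K), σ • x - x ∈ Q

/-- The representation `ρ` of the absolute Galois group of `K` over the field `k` is attached to the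
polynomials `P_v` outside `S`, where `φ : 𝓞 E → k` is used to compare the coefficients: it has an
open kernel, and for the primes `v` outside `S` with `N(v) ≠ 0` in `k` it is unramified at `v` and
the Frobenius elements at `v` have the characteristic polynomial `φ(P_v)`. -/
structure IsAttached {K E : Type} [Field K] [NumberField K] [Field E] [NumberField E] {n : ℕ}
    (P : HeightOneSpectrum (𝓞 K) → (𝓞 E)[X]) (S : Set (HeightOneSpectrum (𝓞 K)))
    {k : Type} [Field k] (φ : 𝓞 E →+* k)
    (ρ : AbsGal K →* Matrix.GeneralLinearGroup (Fin n) k) : Prop where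
  openKernel : IsOpen (ρ.ker : Set (AbsGal K))
  unramified : ∀ v ∉ S, ((Ideal.absNorm v.asIdeal : ℕ) : k) ≠ 0 → ∀ σ, IsInertia v σ → ρ σ = 1
  frobenius : ∀ v ∉ S, ((Ideal.absNorm v.asIdeal : ℕ) : k) ≠ 0 → ∀ σ, IsFrobenius v σ →
    (ρ σ : Matrix (Fin n) (Fin n) k).charpoly = (P v).map φ

/-- The representation `ρ` is semisimple: every stable subspace has a stable complement. -/
def IsSemisimple {G : Type} [Group G] {n : ℕ} {k : Type} [Field k]
    (ρ : G →* Matrix.GeneralLinearGroup (Fin n) k) : Prop :=
  ∀ W : Submodule k (Fin n → k),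
    (∀ g, ∀ x ∈ W, (ρ g : Matrix (Fin n) (Fin n) k).mulVec x ∈ W) →
    ∃ W' : Submodule k (Fin n → k),
      (∀ g, ∀ x ∈ W', (ρ g : Matrix (Fin n) (Fin n) k).mulVec x ∈ W') ∧ IsCompl W W'

/-- The mean square of the traces is bounded: for every complex embedding `ι` of `E` there is a
constant `C` such that the sum of `|ι(c_v)|²` over primes `v` outside `S` of norm at most `N` is at
most `C π(N)`, where `c_v` is the coefficient of `X ^ (n - 1)` in `P_v`. -/
def HasBoundedMeanSquare {K E : Type} [Field K] [NumberField K] [Field E] [NumberField E] (n : ℕ)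
    (P : HeightOneSpectrum (𝓞 K) → (𝓞 E)[X]) (S : Set (HeightOneSpectrum (𝓞 K))) : Prop :=
  ∀ ι : E →+* ℂ, ∃ C : ℝ, ∀ (N : ℕ) (T : Finset (HeightOneSpectrum (𝓞 K))),
    (∀ v ∈ T, v ∉ S ∧ Ideal.absNorm v.asIdeal ≤ N) →
    ∑ v ∈ T, ‖ι ((P v).coeff (n - 1) : 𝓞 E)‖ ^ 2 ≤ C * Nat.primeCounting N

/-- The representation `ρ` is absolutely irreducible: over every field containing `k` the only
stable subspaces are the trivial ones. -/
def IsAbsolutelyIrreducible {G : Type} [Group G] {n : ℕ} {k : Type} [Field k]
    (ρ : G →* Matrix.GeneralLinearGroup (Fin n) k) : Prop :=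
  ∀ (k' : Type) [Field k'] (f : k →+* k') (W : Submodule k' (Fin n → k')),
    (∀ g, ∀ x ∈ W, ((ρ g : Matrix (Fin n) (Fin n) k).map f).mulVec x ∈ W) → W = ⊥ ∨ W = ⊤

/-- The mean of `|τ(c_v)|²` over the (finitely many) primes `v` of norm at most `N`, where `c_v` is
the coefficient of `X ^ (n - 1)` in `P_v`. -/
noncomputable def meanSquare {K E : Type} [Field K] [NumberField K] [Field E] [NumberField E]
    (n : ℕ) (P : HeightOneSpectrum (𝓞 K) → (𝓞 E)[X]) (τ : E →+* ℂ) (N : ℕ) : ℝ :=
  (∑ᶠ v ∈ {v : HeightOneSpectrum (𝓞 K) | Ideal.absNorm v.asIdeal ≤ N},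
    ‖τ ((P v).coeff (n - 1) : 𝓞 E)‖ ^ 2) /
    {v : HeightOneSpectrum (𝓞 K) | Ideal.absNorm v.asIdeal ≤ N}.ncard

/-- The representation `r` of the absolute Galois group of `K` on `F ^ n` is an absolutely
irreducible Artin motive with coefficients in `F` attached to the polynomials `P_v`, where
`f : E → F` is used to compare the coefficients: it has an open kernel, it is absolutely
irreducible, and at all primes `v` outside `S` it is unramified and the Frobenius elements have the
characteristic polynomial `f(P_v)`. -/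
structure IsArtinMotive {K E : Type} [Field K] [NumberField K] [Field E] [NumberField E] {n : ℕ}
    (P : HeightOneSpectrum (𝓞 K) → (𝓞 E)[X]) (S : Set (HeightOneSpectrum (𝓞 K)))
    {F : Type} [Field F] (f : E →+* F)
    (r : AbsGal K →* Matrix.GeneralLinearGroup (Fin n) F) : Prop where
  openKernel : IsOpen (r.ker : Set (AbsGal K))
  irreducible : IsAbsolutelyIrreducible r
  unramified : ∀ v ∉ S, ∀ σ, IsInertia v σ → r σ = 1
  frobenius : ∀ v ∉ S, ∀ σ, IsFrobenius v σ →
    (r σ : Matrix (Fin n) (Fin n) F).charpoly = (P v).map (f.comp (algebraMap (𝓞 E) E))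

/-- **Theorem.** Let `K`, `E` be number fields, `n ≥ 1`, `S` a finite set of primes of `K`, and let
`P_v` be polynomials over the ring of integers of `E` such that the mean square of the coefficients
of `X ^ (n - 1)` is bounded, and for some complex embedding of `E` it is at most some `c < 2` for
arbitrarily large `N`. Suppose that for infinitely many primes `λ` of `E` there is a semisimple
representation in dimension `n` over a field `k`, attached to the `P_v` outside `S` by means of a
homomorphism `φ : 𝓞 E → k` with kernel `λ`. Then there is an absolutely irreducible Artin motive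
attached to the `P_v`, with coefficients in a number field containing `E`; and such a motive exists
with coefficients in every field `F` containing `E` in which `P_v` has a simple root for at least
one prime `v` outside `S`. -/
theorem result {n : ℕ} (hn : 0 < n) (K : Type) [Field K] [NumberField K] (E : Type) [Field E]
    [NumberField E] (P : HeightOneSpectrum (𝓞 K) → (𝓞 E)[X])
    (S : Set (HeightOneSpectrum (𝓞 K))) (hS : S.Finite) (hP : HasBoundedMeanSquare n P S)
    (hcusp : ∃ τ : E →+* ℂ, ∃ c < (2 : ℝ), ∃ᶠ N : ℕ in atTop, meanSquare n P τ N ≤ c)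
    (hmod : {L : HeightOneSpectrum (𝓞 E) | ∃ (k : Type) (_ : Field k) (φ : 𝓞 E →+* k)
      (ρ : AbsGal K →* Matrix.GeneralLinearGroup (Fin n) k),
      RingHom.ker φ = L.asIdeal ∧ IsSemisimple ρ ∧ IsAttached P S φ ρ}.Infinite) :
    (∃ (F : Type) (_ : Field F) (_ : NumberField F) (f : E →+* F)
      (r : AbsGal K →* Matrix.GeneralLinearGroup (Fin n) F), IsArtinMotive P S f r) ∧
    ∀ (F : Type) [Field F] (f : E →+* F),
      (∃ v ∉ S, ∃ a : F, ((P v).map (f.comp (algebraMap (𝓞 E) E))).rootMultiplicity a = 1) →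
      ∃ r : AbsGal K →* Matrix.GeneralLinearGroup (Fin n) F, IsArtinMotive P S f r := by
  classical
  set Λ := {L : HeightOneSpectrum (𝓞 E) | ∃ (k : Type) (_ : Field k) (φ : 𝓞 E →+* k)
      (ρ : AbsGal K →* Matrix.GeneralLinearGroup (Fin n) k),
      RingHom.ker φ = L.asIdeal ∧ IsSemisimple ρ ∧ IsAttached P S φ ρ} with hΛ
  have : Infinite Λ := hmod.to_subtype
  have hch : ∀ L : Λ, ∃ (k : Type) (_ : Field k) (φ : 𝓞 E →+* k)
      (ρ : AbsGal K →* Matrix.GeneralLinearGroup (Fin n) k),
      RingHom.ker φ = (L : HeightOneSpectrum (𝓞 E)).asIdeal ∧ IsSemisimple ρ ∧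
        IsAttached P S φ ρ := fun L => L.2
  choose k hk φ ρ hφ hss hatt using hch
  have hset : ∀ N : ℕ, {v : HeightOneSpectrum (𝓞 K) | Ideal.absNorm v.asIdeal ≤ N} =
      (Pool.Agent.W540.BE.upto K N : Set (HeightOneSpectrum (𝓞 K))) := by
    intro N
    ext v
    rw [Set.mem_ofPred_eq, Finset.mem_coe, Pool.Agent.W540.BE.mem_upto]
    rfl
  have hmean : ∀ (τ : E →+* ℂ) (N : ℕ), meanSquare n P τ N =
      (∑ v ∈ Pool.Agent.W540.BE.upto K N, ‖τ ((P v).coeff (n - 1) : 𝓞 E)‖ ^ 2) /
        ((Pool.Agent.W540.BE.upto K N).card : ℝ) := by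
    intro τ N
    rw [meanSquare, hset, Set.ncard_coe_finset, finsum_mem_coe_finset]
  have hcard : Tendsto (fun N : ℕ => ((Pool.Agent.W540.BE.upto K N).card : ℝ) /
      (Nat.primeCounting N : ℝ)) atTop (𝓝 1) := Pool.Agent.TH119.IR.tendsto_card K
  have hpi : Tendsto (fun N : ℕ => (Nat.primeCounting N : ℝ)) atTop atTop :=
    tendsto_natCast_atTop_atTop.comp Nat.tendsto_primeCounting
  have hcusp' : ∃ τ : E →+* ℂ, ∃ c < (2 : ℝ), ∃ᶠ N : ℕ in atTop,
      (∑ v ∈ Pool.Agent.W540.BE.upto K N, ‖τ ((P v).coeff (n - 1) : 𝓞 E)‖ ^ 2) ≤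
        c * (Nat.primeCounting N : ℝ) := by
    obtain ⟨τ, c, hc, hfr⟩ := hcusp
    refine ⟨τ, (c + 2) / 2, by linarith, ?_⟩
    have h1 : Tendsto (fun N : ℕ => c * (((Pool.Agent.W540.BE.upto K N).card : ℝ) /
        (Nat.primeCounting N : ℝ))) atTop (𝓝 c) := by
      have := hcard.const_mul c
      rwa [mul_one] at this
    have h2 := ((h1.eventually_lt_const (show c < (c + 2) / 2 by linarith)).and
      (hpi.eventually_gt_atTop 0)).and (hcard.eventually_const_lt (show (0 : ℝ) < 1 by norm_num))
    refine (hfr.and_eventually h2).mono ?_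
    rintro N ⟨h3, ⟨h4, h5⟩, h6⟩
    have h7 : (0 : ℝ) < (Pool.Agent.W540.BE.upto K N).card := by
      rw [lt_div_iff₀ h5, zero_mul] at h6
      exact h6
    rw [hmean, div_le_iff₀ h7] at h3
    rw [← mul_div_assoc, div_lt_iff₀ h5] at h4
    linarith
  have hirr : ∀ {F : Type} [Field F] (r : AbsGal K →* Matrix.GeneralLinearGroup (Fin n) F),
      Pool.Agent.TH119.OP.sp r = ⊤ → IsAbsolutelyIrreducible r := by
    intro F _ r hr k'' _ g W hW
    exact Pool.Agent.TH119.IR.irreducible_of_sp r hr g W hW
  obtain ⟨h1, h2⟩ := Pool.Agent.TH119.RF.artin hn P S hS hP hcusp' (J := Λ) (k := k) φ (by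
    intro a ha
    have h0 : Ideal.span {a} ≠ 0 := by
      rwa [Ne, Ideal.zero_eq_bot, Ideal.span_singleton_eq_bot]
    refine Set.Finite.subset (Set.Finite.preimage Subtype.val_injective.injOn
      (Ideal.finite_factors h0)) ?_
    intro L hL
    change (L : HeightOneSpectrum (𝓞 E)).asIdeal ∣ Ideal.span {a}
    rw [Ideal.dvd_span_singleton, ← hφ L]
    exact hL) ρ (fun L => ⟨(hatt L).openKernel, hss L, (hatt L).unramified, (hatt L).frobenius⟩)
  refine ⟨?_, fun F _ f hf => ?_⟩
  · obtain ⟨F, i1, i2, f, r, h3, h4, h5, h6⟩ := h1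
    exact ⟨F, i1, i2, f, r, h3, hirr r h4, h5, h6⟩
  · obtain ⟨r, h3, h4, h5, h6⟩ := h2 F f hf
    exact ⟨r, h3, hirr r h4, h5, h6⟩

end Pool.Agent.Results.MP_7742d9_nt.ArtinMotivesOverHeckeField
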