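import Mathlib
import Pool.Agent.TH119.UX.Main

/-!
# Motives of algebraic cuspidal representations: occurrence at all primes, with uniform exponents

Let `K` and `E` be number fields, and let `P_v`, `Q_v` be polynomials over the ring of integers of
`E`, for the primes `v` of `K`: think of the Hecke polynomials of an algebraic cuspidal automorphic
representation `Π` of `GL_n` (normalised to be integral), and of the Frobenius polynomials on the
étale cohomology `W` of a smooth projective variety `X` over `K` (or on a direct summand of it), of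
dimension `m`.

Suppose that the Frobenius eigenvalues of `Π` occur in `W` at one prime in characteristic zero, or
modulo infinitely many primes `λ` of `E`.  Then the irreducible Galois representations attached to
`Π` are subquotients of `W^{⊗ a} ⊗ (W^∨)^{⊗ b}`, hence arise from `X^{a+b}`, at all primes in
characteristic zero and modulo all primes `λ` of residue characteristic larger than `B`, where
`a, b ≤ B` and `B` depends only on `n` and `m`.
-/

namespace Pool.Agent.Results.MP_7742d9_nt.OccurrenceAtAllPrimes

open NumberField IsDedekindDomain Polynomial Filter Topology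

/-- The absolute Galois group, with the Krull topology. -/
abbrev AbsGal (K : Type) [Field K] : Type := Gal(AlgebraicClosure K/K)

/-- `σ` is a Frobenius element at the prime `v` of `K`: there is a maximal ideal `Q` above `v` of the
ring of all algebraic integers with `σ x ≡ x ^ N(v)` modulo `Q` for all `x`. -/
def IsFrobenius {K : Type} [Field K] [NumberField K] (v : HeightOneSpectrum (𝓞 K))
    (σ : AbsGal K) : Prop :=
  ∃ Q : Ideal (𝓞 (AlgebraicClosure K)), Q.IsMaximal ∧
    Q.comap (algebraMap (𝓞 K) (𝓞 (AlgebraicClosure K))) = v.asIdeal ∧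
    ∀ x : 𝓞 (AlgebraicClosure K), σ • x - x ^ Ideal.absNorm v.asIdeal ∈ Q

/-- The set `S` of primes of `K` has (natural) density zero. Finite sets have density zero. -/
def HasDensityZero {K : Type} [Field K] [NumberField K]
    (S : Set (HeightOneSpectrum (𝓞 K))) : Prop :=
  Tendsto (fun N : ℕ =>
    ({v : HeightOneSpectrum (𝓞 K) | Ideal.absNorm v.asIdeal ≤ N ∧ v ∈ S}.ncard : ℝ) /
    {v : HeightOneSpectrum (𝓞 K) | Ideal.absNorm v.asIdeal ≤ N}.ncard) atTop (𝓝 0)

/-- For the primes `v` outside `S` with `N(v) ≠ 0` in the field `k`, all Frobenius elements at `v`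
have the characteristic polynomial `φ(P_v)` in the representation `ρ` over `k`, for the homomorphism
`φ` from the integers of `E` to `k`. -/
def HasFrobenius {K E : Type} [Field K] [NumberField K] [Field E] [NumberField E] {n : ℕ}
    (P : HeightOneSpectrum (𝓞 K) → (𝓞 E)[X]) (S : Set (HeightOneSpectrum (𝓞 K)))
    {k : Type} [Field k] (φ : 𝓞 E →+* k)
    (ρ : AbsGal K →* Matrix.GeneralLinearGroup (Fin n) k) : Prop :=
  ∀ v ∉ S, ((Ideal.absNorm v.asIdeal : ℕ) : k) ≠ 0 → ∀ σ, IsFrobenius v σ →
    (ρ σ : Matrix (Fin n) (Fin n) k).charpoly = (P v).map φ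

/-- The eigenvalues of `ρ(g)` are eigenvalues of `W(g)`, for all `g`. This is so if `ρ` is a
subquotient of a direct sum of copies of `W`. -/
def EigenvaluesOccur {G : Type} [Group G] {n m : ℕ} {k : Type} [Field k]
    (ρ : G →* Matrix.GeneralLinearGroup (Fin n) k)
    (W : G →* Matrix.GeneralLinearGroup (Fin m) k) : Prop :=
  ∀ g, ∀ x : AlgebraicClosure k, aeval x (ρ g : Matrix (Fin n) (Fin n) k).charpoly = 0 →
    aeval x (W g : Matrix (Fin m) (Fin m) k).charpoly = 0

/-- Occurrence at the prime ideal `λ` of the integers of `E` (which may be zero): for a field `k` and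
a homomorphism `φ` from the integers of `E` to `k` with kernel `λ` there are representations `ρ` and
`W` over `k`, in dimensions `n` and `m`, with the Frobenius polynomials `φ(P_v)` and `φ(Q_v)`, such
that the eigenvalues of `ρ(g)` are eigenvalues of `W(g)` for all `g`. -/
def OccursAt {K E : Type} [Field K] [NumberField K] [Field E] [NumberField E] (n m : ℕ)
    (P Q : HeightOneSpectrum (𝓞 K) → (𝓞 E)[X]) (S : Set (HeightOneSpectrum (𝓞 K)))
    (L : Ideal (𝓞 E)) : Prop :=
  ∃ (k : Type) (_ : Field k) (φ : 𝓞 E →+* k)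
    (ρ : AbsGal K →* Matrix.GeneralLinearGroup (Fin n) k)
    (W : AbsGal K →* Matrix.GeneralLinearGroup (Fin m) k),
    RingHom.ker φ = L ∧ HasFrobenius P S φ ρ ∧ HasFrobenius Q S φ W ∧ EigenvaluesOccur ρ W

/-- The representation `ρ` is irreducible. -/
def IsIrreducible {G : Type} [Group G] {n : ℕ} {k : Type} [Field k]
    (ρ : G →* Matrix.GeneralLinearGroup (Fin n) k) : Prop :=
  ∀ V : Submodule k (Fin n → k),
    (∀ g, ∀ x ∈ V, (ρ g : Matrix (Fin n) (Fin n) k).mulVec x ∈ V) → V = ⊥ ∨ V = ⊤

/-- `ρ` is a subquotient of the representation of `G` by the matrices `M(g)`: there are a subspace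
`U` stable under all `M(g)` and an equivariant surjective linear map from `U` to the space of
`ρ`. -/
def IsSubquotient {G : Type} [Group G] {n : ℕ} {k : Type} [Field k] {ι : Type} [Fintype ι]
    (ρ : G →* Matrix.GeneralLinearGroup (Fin n) k) (M : G → Matrix ι ι k) : Prop :=
  ∃ (U : Submodule k (ι → k)) (hU : ∀ g, ∀ u ∈ U, (M g).mulVec u ∈ U)
    (π : U →ₗ[k] (Fin n → k)), Function.Surjective π ∧
    ∀ g (u : U), π ⟨(M g).mulVec u, hU g u u.2⟩ =
      (ρ g : Matrix (Fin n) (Fin n) k).mulVec (π u)

/-- The matrices of the representation `W^{⊗ a} ⊗ (W^∨)^{⊗ b}` in the standard basis: the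
coefficients are products of `a` coefficients of `W(g)` and `b` coefficients of the transpose of
`W(g⁻¹)`. -/
def tensorConstruction {G : Type} [Group G] {m : ℕ} {k : Type} [Field k]
    (W : G →* Matrix.GeneralLinearGroup (Fin m) k) (a b : ℕ) (g : G) :
    Matrix ((Fin a → Fin m) × (Fin b → Fin m)) ((Fin a → Fin m) × (Fin b → Fin m)) k :=
  Matrix.of fun I J => (∏ s, (W g : Matrix (Fin m) (Fin m) k) (I.1 s) (J.1 s)) *
    ∏ t, (W g⁻¹ : Matrix (Fin m) (Fin m) k) (J.2 t) (I.2 t)

/-- **Theorem.** For all `n ≥ 1` and `m` there is a constant `B` with the following property. Let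
`K`, `E` be number fields, let `P_v`, `Q_v` be polynomials over the integers of `E` for the primes
`v` of `K`, and let `S` be a set of primes of density zero. Suppose that there is occurrence at the
prime ideal zero (in characteristic zero), or at infinitely many maximal ideals `λ` of the integers
of `E`. Then for every algebraically closed Hausdorff topological field `k`, of characteristic zero
or of characteristic larger than `B` (in the latter case the discrete topology is allowed), and for
every homomorphism `φ` from the integers of `E` to `k`: every continuous irreducible representation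
`ρ` over `k` in dimension `n` with the Frobenius polynomials `φ(P_v)` is a subquotient of
`W^{⊗ a} ⊗ (W^∨)^{⊗ b}` for some `a, b ≤ B`, for every continuous representation `W` over `k` in
dimension `m` with the Frobenius polynomials `φ(Q_v)` (outside a set of primes of density zero). -/
theorem result (n m : ℕ) (hn : 0 < n) : ∃ B : ℕ,
    ∀ (K : Type) [Field K] [NumberField K] (E : Type) [Field E] [NumberField E]
      (P Q : HeightOneSpectrum (𝓞 K) → (𝓞 E)[X]) (S : Set (HeightOneSpectrum (𝓞 K))),
      HasDensityZero S →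
      (OccursAt n m P Q S ⊥ ∨
        {L : HeightOneSpectrum (𝓞 E) | OccursAt n m P Q S L.asIdeal}.Infinite) →
      ∀ (k : Type) [Field k] [IsAlgClosed k] [TopologicalSpace k] [IsTopologicalRing k]
        [T2Space k], (ringChar k = 0 ∨ B < ringChar k) →
      ∀ (φ : 𝓞 E →+* k) (T : Set (HeightOneSpectrum (𝓞 K))), HasDensityZero T →
      ∀ (ρ : AbsGal K →* Matrix.GeneralLinearGroup (Fin n) k)
        (W : AbsGal K →* Matrix.GeneralLinearGroup (Fin m) k),
        (Continuous fun g => (ρ g : Matrix (Fin n) (Fin n) k)) →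
        (Continuous fun g => (W g : Matrix (Fin m) (Fin m) k)) →
        IsIrreducible ρ → HasFrobenius P T φ ρ → HasFrobenius Q T φ W →
        ∃ a ≤ B, ∃ b ≤ B, IsSubquotient ρ (tensorConstruction W a b) := by
  classical
  obtain ⟨B, hB⟩ := Pool.Agent.TH119.UX.main n m hn
  refine ⟨B, fun K _ _ E _ _ P Q S hS hocc k _ _ _ _ _ hk φ T hT ρ W hρc hWc hirr hρ hW => ?_⟩
  have hocc' : ∀ a : 𝓞 E, a ≠ 0 → ∃ L : Ideal (𝓞 E), a ∉ L ∧ OccursAt n m P Q S L := by
    intro a ha
    rcases hocc with h | h
    · exact ⟨⊥, by rwa [Ideal.mem_bot], h⟩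
    · by_contra hcon
      push Not at hcon
      apply h
      have h0 : Ideal.span {a} ≠ 0 := by
        rwa [Ne, Ideal.zero_eq_bot, Ideal.span_singleton_eq_bot]
      refine (Ideal.finite_factors h0).subset fun L hL => ?_
      change L.asIdeal ∣ Ideal.span {a}
      rw [Ideal.dvd_span_singleton]
      by_contra hne
      exact hcon L.asIdeal hne hL
  have hdvd : ∀ v ∉ S, Pool.Agent.TH119.UX.mo n (P v) ∣ Q v ^ n := by
    refine Pool.Agent.TH119.UX.poly_dvd (m := m) P Q S fun a ha => ?_
    obtain ⟨L, haL, k₁, _, φ₁, ρ₁, W₁, h1, h2, h3, h4⟩ := hocc' a ha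
    refine ⟨k₁, inferInstance, φ₁, ρ₁, W₁, ?_, h2, h3, fun g => ?_⟩
    · intro h
      exact haL (h1 ▸ (RingHom.mem_ker.2 h))
    · refine Pool.Agent.TH119.UX.dvd_of_roots _ _ (Matrix.charpoly_monic _) ?_ (h4 g)
      rw [Matrix.charpoly_natDegree_eq_dim, Fintype.card_fin]
  have hch : ∀ N : ℕ, N ≠ 0 → N ≤ B → (N : k) ≠ 0 := by
    intro N hN hNB h
    have h1 := ringChar.dvd h
    rcases hk with h2 | h2
    · rw [h2, zero_dvd_iff] at h1
      exact hN h1
    · have h3 := Nat.le_of_dvd (Nat.pos_of_ne_zero hN) h1
      omega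
  obtain ⟨a, b, ha, hb, h⟩ := hB K E P Q (S ∪ T)
    ((Pool.Agent.TH119.GO.thin_of_tendsto S hS).union
      (Pool.Agent.TH119.GO.thin_of_tendsto T hT))
    (fun v hv => hdvd v fun h => hv (Or.inl h)) k hch φ ρ W hρc hWc hirr
    (fun v hv => hρ v fun h => hv (Or.inr h)) (fun v hv => hW v fun h => hv (Or.inr h))
  exact ⟨a, ha, b, hb, h⟩

end Pool.Agent.Results.MP_7742d9_nt.OccurrenceAtAllPrimes
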